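import Mathlib

namespace Pool.Agent.Results.MP_790317_an.Ext

open LinearPMap RealInnerProductSpace

section Defs

variable {E F : Type} [NormedAddCommGroup E] [InnerProductSpace ℝ E] [CompleteSpace E]
  [NormedAddCommGroup F] [InnerProductSpace ℝ F] [CompleteSpace F]

/-- The range of an unbounded operator. -/
def ran (T : E →ₗ.[ℝ] F) : Set F := {y | ∃ x, (x, y) ∈ T.graph}

/-- The pair `(A, B)` admits a closed-range extension. -/
def Extn (A : E →ₗ.[ℝ] F) (B : F →ₗ.[ℝ] E) : Prop :=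
  ∃ (X Y : Type) (_ : NormedAddCommGroup X) (_ : InnerProductSpace ℝ X) (_ : CompleteSpace X)
    (_ : NormedAddCommGroup Y) (_ : InnerProductSpace ℝ Y) (_ : CompleteSpace Y)
    (𝒜 : X →ₗ.[ℝ] Y) (ιX : E →ₗᵢ[ℝ] X) (ιY : F →ₗᵢ[ℝ] Y),
    Dense (𝒜.domain : Set X) ∧ 𝒜.IsClosed ∧ IsClosed (ran 𝒜) ∧
    (∀ x y, (x, y) ∈ A.closure.graph → (ιX x, ιY y) ∈ 𝒜.graph) ∧
    ∀ y x, (y, x) ∈ B.closure.graph → (ιY y, ιX x) ∈ (-𝒜†).graph

/-- The pair `(A, B)` answers the question. -/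
def Good (A : E →ₗ.[ℝ] F) (B : F →ₗ.[ℝ] E) : Prop :=
  Dense (A.domain : Set E) ∧ Dense (B.domain : Set F) ∧ A ≤ -B† ∧ Extn A B ∧
    ¬IsClosed (ran A.closure) ∧ ¬IsClosed (ran (-B.closure†))

omit [CompleteSpace E] [CompleteSpace F] in
lemma negm (f : E →ₗ.[ℝ] F) (x : E) (y : F) : (x, y) ∈ (-f).graph ↔ (x, -y) ∈ f.graph := by
  simp only [mem_graph_iff, LinearPMap.neg_apply, neg_eq_iff_eq_neg]
  rfl

omit [CompleteSpace E] [CompleteSpace F] in
lemma clo {f : E →ₗ.[ℝ] F} (h : f.IsClosed) : f.closure = f :=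
  eq_of_eq_graph (by
    rw [← h.isClosable.graph_closure_eq_closure_graph, IsClosed.submodule_topologicalClosure_eq h])

lemma main (T : E →L[ℝ] E) (R : F →L[ℝ] F) (V : F →L[ℝ] E) (P : E →L[ℝ] F) {s : ℝ} (hs : s ≠ 0)
    (hT : ∀ a b, ⟪T a, b⟫ = ⟪a, T b⟫) (hR : ∀ a b, ⟪R a, b⟫ = ⟪a, R b⟫)
    (hV : ∀ c u, ⟪V c, u⟫ = ⟪c, P u⟫) (hP : ∀ c, P (V c) = s • c)
    (hi : ∀ a c, T a = V c → a = 0) (hc : ¬IsClosed (Set.range R)) :
    ∃ A B : WithLp 2 (E × F) →ₗ.[ℝ] WithLp 2 (E × F), Good A B := by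
  have orth : ∀ w, (∀ u, P u = 0 → ⟪w, u⟫ = 0) → ∃ e, w = V e := fun w h => by
    have h1 : P (w - V (s⁻¹ • P w)) = 0 := by simp [hP, hs]
    refine ⟨s⁻¹ • P w, sub_eq_zero.1 (inner_self_eq_zero (𝕜 := ℝ).1 ?_)⟩
    rw [inner_sub_left, h _ h1, hV, h1]
    simp
  let gA : Submodule ℝ (WithLp 2 (E × F) × WithLp 2 (E × F)) :=
    { carrier := {p | p.1.fst = T p.2.fst ∧ p.2.snd = 0}
      add_mem' := fun h1 h2 => by simp_all
      zero_mem' := by simp
      smul_mem' := fun _ _ h => by simp_all }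
  let gS : Submodule ℝ (WithLp 2 (E × F) × WithLp 2 (E × F)) :=
    { carrier := {p | (p.1.fst = T p.2.fst ∧ p.2.snd = 0) ∧ P p.2.fst = R p.1.snd}
      add_mem' := fun h1 h2 => by simp_all
      zero_mem' := by simp
      smul_mem' := fun _ _ h => by simp_all }
  have fA : ∀ p ∈ gA, p.1 = 0 → p.2 = 0 := fun p hp h => by
    have h1 : T p.2.fst = V 0 := by simpa [h] using hp.1.symm
    exact WithLp.ofLp_injective 2 (Prod.ext (hi _ _ h1) hp.2)
  obtain ⟨A, hA⟩ : ∃ A : WithLp 2 (E × F) →ₗ.[ℝ] WithLp 2 (E × F),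
      ∀ x y, (x, y) ∈ A.graph ↔ x.fst = T y.fst ∧ y.snd = 0 :=
    ⟨gA.toLinearPMap, fun x y => by rw [Submodule.toLinearPMap_graph_eq _ fA]; rfl⟩
  obtain ⟨S, hS⟩ : ∃ S : WithLp 2 (E × F) →ₗ.[ℝ] WithLp 2 (E × F),
      ∀ x y, (x, y) ∈ S.graph ↔ (x.fst = T y.fst ∧ y.snd = 0) ∧ P y.fst = R x.snd :=
    ⟨gS.toLinearPMap, fun x y => by
      rw [Submodule.toLinearPMap_graph_eq gS fun p hp => fA p hp.1]; rfl⟩
  have cA : IsClosed {p : WithLp 2 (E × F) × WithLp 2 (E × F) |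
      p.1.fst = T p.2.fst ∧ p.2.snd = 0} :=
    (isClosed_eq (by fun_prop) (by fun_prop)).inter (isClosed_eq (by fun_prop) (by fun_prop))
  have cS : S.IsClosed := by
    have : (S.graph : Set _) = {p | _} := Set.ext fun p : WithLp 2 (E × F) × WithLp 2 (E × F) =>
      hS p.1 p.2
    rw [LinearPMap.IsClosed, this]
    exact cA.inter (isClosed_eq (by fun_prop) (by fun_prop))
  have cN : (-S).IsClosed := by
    have : ((-S).graph : Set _) = 
        (fun p : WithLp 2 (E × F) × WithLp 2 (E × F) => (p.1, -p.2)) ⁻¹' S.graph :=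
      Set.ext fun p : WithLp 2 (E × F) × WithLp 2 (E × F) => negm S p.1 p.2
    rw [LinearPMap.IsClosed, this]
    exact IsClosed.preimage (by fun_prop) cS
  have mk : ∀ u y, P u = R y → (WithLp.toLp 2 (T u, y), WithLp.toLp 2 (u, (0 : F))) ∈ S.graph :=
    fun u y h => (hS _ _).2 ⟨⟨rfl, rfl⟩, h⟩
  have dS : Dense (S.domain : Set (WithLp 2 (E × F))) := by
    rw [Submodule.dense_iff_topologicalClosure_eq_top, Submodule.topologicalClosure_eq_top_iff,
      Submodule.eq_bot_iff]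
    intro x hx
    have h : ∀ u y, P u = R y → ⟪T u, x.fst⟫ + ⟪y, x.snd⟫ = 0 := fun u y h => by
      simpa using hx _ (mem_domain_of_mem_graph (mk u y h))
    obtain ⟨e, he⟩ := orth (T x.fst) fun u hu => by
      rw [real_inner_comm]
      simpa [hT] using h u 0 (by simpa using hu)
    have h1 := hi _ _ he
    have h2 := h (V (s⁻¹ • R x.snd)) x.snd (by simp [hP, hs])
    exact WithLp.ofLp_injective 2 (Prod.ext h1 (by simpa [h1] using h2))
  have SA : S ≤ A := le_graph_iff.1 fun p hp => (hA _ _).2 ((hS _ _).1 hp).1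
  have dA : Dense (A.domain : Set (WithLp 2 (E × F))) := dS.mono SA.1
  have sym : ∀ x y a b, (x, y) ∈ A.graph → (a, b) ∈ A.graph → ⟪b, x⟫ = ⟪a, y⟫ :=
    fun x y a b h1 h2 => by
      obtain ⟨p1, p2⟩ := (hA _ _).1 h1
      obtain ⟨q1, q2⟩ := (hA _ _).1 h2
      simp only [WithLp.prod_inner_apply, WithLp.ofLp_fst, WithLp.ofLp_snd, p1, p2, q1, q2, hT]
      simp
  have adj : ∀ x y, (x, y) ∈ (-(-S)†).graph ↔ ∀ a b, (a, b) ∈ S.graph → ⟪b, x⟫ = ⟪a, y⟫ :=
    fun x y => by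
      rw [negm, adjoint_graph_eq_graph_adjoint (T := -S) dS, Submodule.mem_adjoint_iff]
      refine ⟨fun h a b hab => ?_, fun h a b hab => ?_⟩
      · have := h a (-b) (by simpa only [negm, neg_neg] using hab)
        simp only [inner_neg_left, inner_neg_right] at this
        linarith
      · have := h a _ ((negm _ _ _).1 hab)
        simp only [inner_neg_left, inner_neg_right] at this ⊢
        linarith
  refine ⟨S, -S, dS, dS, le_graph_iff.1 fun p hp => (adj _ _).2 fun a b h =>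
    sym _ _ _ _ (le_graph_iff.2 SA hp) (le_graph_iff.2 SA h),
    ⟨_, _, _, _, inferInstance, _, _, inferInstance, A, .id, .id, dA, ?_, ?_, ?_, ?_⟩, ?_, ?_⟩
  · have : (A.graph : Set _) = {p | _} := Set.ext fun p : WithLp 2 (E × F) × WithLp 2 (E × F) =>
      hA p.1 p.2
    rwa [LinearPMap.IsClosed, this]
  · have : ran A = {y | y.snd = 0} := Set.ext fun y => ⟨fun ⟨_, h⟩ => ((hA _ _).1 h).2,
      fun h => ⟨WithLp.toLp 2 (T y.fst, 0), (hA _ _).2 ⟨rfl, h⟩⟩⟩
    rw [this]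
    exact isClosed_eq (by fun_prop) (by fun_prop)
  · rw [clo cS]
    exact fun x y h => le_graph_iff.2 SA h
  · rw [clo cN]
    intro y x h
    rw [negm, adjoint_graph_eq_graph_adjoint dA, Submodule.mem_adjoint_iff]
    exact fun a b hab => sub_eq_zero.2 (sym _ _ _ _ (le_graph_iff.2 SA ((negm _ _ _).1 h)) hab)
  · rw [clo cS]
    refine fun h => hc ?_
    convert h.preimage (f := fun c => WithLp.toLp 2 (V (s⁻¹ • c), (0 : F))) (by fun_prop) using 1
    refine Set.ext fun c => ⟨fun ⟨y, h⟩ => ⟨_, mk _ y (by simp [hP, hs, h])⟩, fun ⟨x, h⟩ => ?_⟩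
    exact ⟨x.snd, by simpa [hP, hs] using ((hS _ _).1 h).2.symm⟩
  · rw [clo cN]
    refine fun h => hc ?_
    convert h.preimage (f := fun d => WithLp.toLp 2 ((0 : E), d)) (by fun_prop) using 1
    refine Set.ext fun d => ⟨fun ⟨e, h⟩ => ⟨WithLp.toLp 2 (V e, 0), (adj _ _).2 fun a b hab => ?_⟩,
      fun ⟨x, h⟩ => ?_⟩
    · obtain ⟨⟨-, p2⟩, p3⟩ := (hS _ _).1 hab
      simp only [WithLp.prod_inner_apply, WithLp.ofLp_fst, WithLp.ofLp_snd, inner_zero_right,
        add_zero, zero_add]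
      rw [real_inner_comm, hV, p3, ← hR, h, real_inner_comm]
    · have h1 : ∀ u y, P u = R y → ⟪u, x.fst⟫ = ⟪y, d⟫ := fun u y hu => by
        simpa using (adj _ _).1 h _ _ (mk u y hu)
      obtain ⟨e, he⟩ := orth x.fst fun u hu => by
        simpa [real_inner_comm] using h1 u 0 (by simpa using hu)
      refine ⟨e, ext_inner_left ℝ fun y => ?_⟩
      rw [← h1 (V (s⁻¹ • R y)) y (by simp [hP, hs]), he, hV, hP, ← hR]
      simp [inner_smul_left, inner_smul_right, hs]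

end Defs

theorem result : ∃ (H₀ H₁ : Type) (_ : NormedAddCommGroup H₀) (_ : InnerProductSpace ℝ H₀)
    (_ : CompleteSpace H₀) (_ : NormedAddCommGroup H₁) (_ : InnerProductSpace ℝ H₁)
    (_ : CompleteSpace H₁) (A : H₀ →ₗ.[ℝ] H₁) (B : H₁ →ₗ.[ℝ] H₀), Good A B := by
  let L := lp (fun _ : ℕ => ℝ) 2
  let t : ℕ → ℝ := fun n => (1 / 2) ^ n
  have t0 : ∀ n, 0 < t n := fun n => by positivity
  let v : L := ⟨t, memℓp_gen (by
    have : Summable fun n : ℕ => ((1 / 2 : ℝ) ^ 2) ^ n :=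
      summable_geometric_of_lt_one (by norm_num) (by norm_num)
    simpa [t, ← pow_mul, mul_comm] using this)⟩
  let R : L →L[ℝ] L := lp.mapCLM 2 (fun n => t n • ContinuousLinearMap.id ℝ ℝ) zero_le_one
    fun n => by
      rw [norm_smul, ContinuousLinearMap.norm_id, mul_one, Real.norm_of_nonneg (t0 n).le]
      exact pow_le_one₀ (by norm_num) (by norm_num)
  have Ra : ∀ x n, R x n = t n * x n := fun _ _ => rfl
  have hR : ∀ a b, ⟪R a, b⟫ = ⟪a, R b⟫ := fun a b => by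
    simp only [L, lp.inner_eq_tsum, Ra]
    exact tsum_congr fun n => by simp; ring
  have nv : v ∉ Set.range R := fun ⟨x, hx⟩ => by
    have h1 : ∀ n, x n = 1 := fun n => mul_left_cancel₀ (t0 n).ne' (by rw [← Ra, hx, mul_one])
    have := ((lp.memℓp x).summable (by norm_num)).tendsto_atTop_zero
    simp [h1] at this
  have v0 : v ≠ 0 := fun h => nv ⟨0, by simp [h]⟩
  obtain ⟨A, B, h⟩ := main (E := lp (fun _ : ℕ => L) 2) (F := L)
    (lp.mapCLM 2 (fun _ => R) (norm_nonneg R) fun _ => le_rfl) R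
    (lp.mapCLM 2 (fun _ => ContinuousLinearMap.toSpanSingleton ℝ v) (norm_nonneg _) fun _ => le_rfl)
    (lp.mapCLM 2 (fun _ => innerSL ℝ v) (norm_nonneg _) fun _ => le_rfl) (s := ⟪v, v⟫)
    (inner_self_ne_zero.2 v0)
    (fun a b => by
      rw [lp.inner_eq_tsum, lp.inner_eq_tsum]
      exact tsum_congr fun n => hR _ _) hR
    (fun c u => by
      rw [lp.inner_eq_tsum, lp.inner_eq_tsum]
      refine tsum_congr fun n => ?_
      change ⟪c n • v, u n⟫ = ⟪c n, ⟪v, u n⟫⟫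
      simp [inner_smul_left, mul_comm])
    (fun c => lp.ext (funext fun n => by
      change ⟪v, c n • v⟫ = ⟪v, v⟫ * c n
      rw [inner_smul_right, mul_comm]))
    (fun a c h => lp.ext (funext fun n => by
      have h1 : R (a n) = c n • v := congrArg (fun z => z n) h
      by_cases h2 : c n = 0
      · refine lp.ext (funext fun k => mul_left_cancel₀ (t0 k).ne' ?_)
        rw [← Ra, h1, h2, zero_smul]
        simp
      · exact absurd ⟨(c n)⁻¹ • a n, by
          rw [_root_.map_smul, h1, smul_smul, inv_mul_cancel₀ h2, one_smul]⟩ nv))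
    (fun h => nv (h.mem_of_tendsto (lp.hasSum_single (by simp) v) (.of_forall fun s =>
      ⟨∑ n ∈ s, lp.single 2 n 1, by
        rw [map_sum]
        refine Finset.sum_congr rfl fun n _ => lp.ext (funext fun k => ?_)
        rw [Ra]
        rcases eq_or_ne k n with rfl | hk
        · simp [v]
        · simp [Pi.single_eq_of_ne hk]⟩)))
  exact ⟨_, _, _, _, inferInstance, _, _, inferInstance, A, B, h⟩

end Pool.Agent.Results.MP_790317_an.Ext
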